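import Mathlib

namespace Pool.Agent.Results.MP_c4a975_al.MinimalIdeal

section Defs

variable {R : Type} [NonUnitalNonAssocRing R]

/-- The right alternative law `(xy)y = x(yy)`. -/
def RightAlternative (R : Type) [NonUnitalNonAssocRing R] : Prop :=
  ∀ x y : R, (x * y) * y = x * (y * y)

/-- `J` is a two-sided ideal of the (additive subgroup, closed under products) `A`. -/
def IsIdealOf (J A : AddSubgroup R) : Prop :=
  J ≤ A ∧ ∀ x ∈ J, ∀ r ∈ A, r * x ∈ J ∧ x * r ∈ J

/-- `I` is a minimal ideal of `R`. -/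
def IsMinimalIdeal (I : AddSubgroup R) : Prop :=
  I ≠ ⊥ ∧ IsIdealOf I ⊤ ∧ ∀ J : AddSubgroup R, IsIdealOf J ⊤ → J ≤ I → J = ⊥ ∨ J = I

/-- The additive subgroup spanned by all products `ab`, `a ∈ A`, `b ∈ B`. -/
def prodSub (A B : AddSubgroup R) : AddSubgroup R :=
  AddSubgroup.closure {z | ∃ a ∈ A, ∃ b ∈ B, z = a * b}

/-- `I` is simple as a ring. -/
def SimpleAsRing (I : AddSubgroup R) : Prop :=
  prodSub I I ≠ ⊥ ∧ ∀ J : AddSubgroup R, IsIdealOf J I → J = ⊥ ∨ J = I

/-- The derived series of `I`. -/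
def derived (I : AddSubgroup R) : ℕ → AddSubgroup R
  | 0 => I
  | k + 1 => prodSub (derived I k) (derived I k)

/-- The right powers of `I`; `rightPow I n` is the `(n+1)`-st right power. -/
def rightPow (I : AddSubgroup R) : ℕ → AddSubgroup R
  | 0 => I
  | n + 1 => prodSub (rightPow I n) I

/-- `I` is solvable. -/
def Solvable (I : AddSubgroup R) : Prop := ∃ k, derived I k = ⊥

/-- `I` is right nilpotent. -/
def RightNilpotent (I : AddSubgroup R) : Prop := ∃ n, rightPow I n = ⊥

end Defs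

/-- The eight-element ring: `(a, b, c)` stands for `a + b t + c r`. -/
def E : Type := ZMod 2 × ZMod 2 × ZMod 2

instance : AddCommGroup E := inferInstanceAs (AddCommGroup (ZMod 2 × ZMod 2 × ZMod 2))
instance : DecidableEq E := inferInstanceAs (DecidableEq (ZMod 2 × ZMod 2 × ZMod 2))
instance : Fintype E := inferInstanceAs (Fintype (ZMod 2 × ZMod 2 × ZMod 2))

/-- The product `(a+b t+c r)(a'+b' t+c' r) = (aa' + c' b) + (ab' + ba') t`. -/
instance : Mul E := ⟨fun u v => (u.1 * v.1 + v.2.2 * u.2.1, u.1 * v.2.1 + u.2.1 * v.1, 0)⟩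

instance : NonUnitalNonAssocRing E :=
  { (inferInstance : AddCommGroup E), (inferInstance : Mul E) with
    left_distrib := by decide +kernel
    right_distrib := by decide +kernel
    zero_mul := by decide +kernel
    mul_zero := by decide +kernel }

/-- The ideal `I = F₂[t]/(t²)`. -/
def I : AddSubgroup E where
  carrier := {u | u.2.2 = 0}
  zero_mem' := rfl
  add_mem' := by
    have h : ∀ a b : E, a.2.2 = 0 → b.2.2 = 0 → (a + b).2.2 = 0 := by decide +kernel
    intro a b ha hb; exact h a b ha hb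
  neg_mem' := by
    have h : ∀ a : E, a.2.2 = 0 → (-a).2.2 = 0 := by decide +kernel
    intro a ha; exact h a ha

/-- The ideal `(t)` of the ring `I`. -/
def K : AddSubgroup E where
  carrier := {u | u.1 = 0 ∧ u.2.2 = 0}
  zero_mem' := ⟨rfl, rfl⟩
  add_mem' := by
    have h : ∀ a b : E, (a.1 = 0 ∧ a.2.2 = 0) → (b.1 = 0 ∧ b.2.2 = 0) →
        ((a + b).1 = 0 ∧ (a + b).2.2 = 0) := by decide +kernel
    intro a b ha hb; exact h a b ha hb
  neg_mem' := by
    have h : ∀ a : E, (a.1 = 0 ∧ a.2.2 = 0) → ((-a).1 = 0 ∧ (-a).2.2 = 0) := by decide +kernel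
    intro a ha; exact h a ha

/-- The unit of `I`. -/
def one : E := (1, 0, 0)
/-- The element `t`. -/
def tt : E := (0, 1, 0)
/-- The element `r`. -/
def rr : E := (0, 0, 1)

theorem mem_I (u : E) : u ∈ I ↔ u.2.2 = 0 := Iff.rfl
theorem mem_K (u : E) : u ∈ K ↔ u.1 = 0 ∧ u.2.2 = 0 := Iff.rfl

theorem mul_mem_I (u v : E) : u * v ∈ I := rfl

theorem one_mul_I : ∀ u : E, u.2.2 = 0 → one * u = u := by decide +kernel

theorem I_ne_bot : I ≠ ⊥ := by
  intro h
  have h1 : one ∈ I := rfl
  rw [h, AddSubgroup.mem_bot] at h1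
  exact absurd h1 (by decide +kernel)

theorem prodSub_I : prodSub I I = I := by
  apply le_antisymm
  · unfold prodSub
    rw [AddSubgroup.closure_le]
    rintro z ⟨a, _, b, _, rfl⟩
    exact mul_mem_I a b
  · intro u hu
    apply AddSubgroup.subset_closure
    exact ⟨one, rfl, u, hu, (one_mul_I u hu).symm⟩

theorem derived_I (k : ℕ) : derived I k = I := by
  induction k with
  | zero => rfl
  | succ k ih => rw [derived, ih, prodSub_I]

theorem rightPow_I (k : ℕ) : rightPow I k = I := by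
  induction k with
  | zero => rfl
  | succ k ih => rw [rightPow, ih, prodSub_I]

theorem minimal_I : IsMinimalIdeal I := by
  refine ⟨I_ne_bot, ⟨le_top, fun x _ r _ => ⟨mul_mem_I _ _, mul_mem_I _ _⟩⟩, ?_⟩
  intro J hJ hJI
  by_cases hb : J = ⊥
  · exact Or.inl hb
  right
  apply le_antisymm hJI
  have key : ∀ x : E, x.2.2 = 0 → x ≠ 0 → x = one ∨ x * rr = one := by decide +kernel
  have hex : ∃ x : E, x ∈ J ∧ x ≠ 0 := by
    by_contra hno
    push Not at hno
    exact hb ((AddSubgroup.eq_bot_iff_forall J).2 hno)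
  obtain ⟨x, hx, hx0⟩ := hex
  have hone : one ∈ J := by
    rcases key x (hJI hx) hx0 with h | h
    · rw [← h]; exact hx
    · rw [← h]; exact (hJ.2 x hx rr trivial).2
  intro u hu
  rw [← one_mul_I u hu]
  exact (hJ.2 one hone u trivial).2

theorem not_simple_I : ¬ SimpleAsRing I := by
  rintro ⟨_, h⟩
  have hK : IsIdealOf K I := by
    refine ⟨fun u hu => hu.2, ?_⟩
    have h : ∀ x r : E, (x.1 = 0 ∧ x.2.2 = 0) → r.2.2 = 0 →
        ((r * x).1 = 0 ∧ (r * x).2.2 = 0) ∧ ((x * r).1 = 0 ∧ (x * r).2.2 = 0) := by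
      decide +kernel
    intro x hx r hr
    exact h x r hx hr
  rcases h K hK with h1 | h1
  · have h2 : tt ∈ K := ⟨rfl, rfl⟩
    rw [h1, AddSubgroup.mem_bot] at h2
    exact absurd h2 (by decide +kernel)
  · have h2 : one ∈ I := rfl
    rw [← h1] at h2
    exact absurd h2.1 (by decide +kernel)

/-- Some right alternative ring (with eight elements) has a minimal ideal that is neither simple
as a ring nor solvable nor right nilpotent. -/
theorem result : ∃ (R : Type) (_ : NonUnitalNonAssocRing R), Finite R ∧ RightAlternative R ∧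
    ∃ I : AddSubgroup R, IsMinimalIdeal I ∧ ¬ SimpleAsRing I ∧ ¬ Solvable I ∧
      ¬ RightNilpotent I := by
  refine ⟨E, inferInstance, inferInstance, ?_, I, minimal_I, not_simple_I, ?_, ?_⟩
  · unfold RightAlternative; decide +kernel
  · rintro ⟨k, hk⟩
    rw [derived_I] at hk
    exact I_ne_bot hk
  · rintro ⟨k, hk⟩
    rw [rightPow_I] at hk
    exact I_ne_bot hk

end Pool.Agent.Results.MP_c4a975_al.MinimalIdeal
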